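import Pool.Agent.H31.LEV.Targets

/-!
# LEV, row BLI: the integral of the Blaschke factor over the right side
-/

set_option autoImplicit false

open Complex Filter Topology Set

namespace Pool.Agent.H77.LEV

open Pool.Agent.H31.LEV

/-- the integrand of Carleman's formula -/
noncomputable def Ph (a t₀ U : ℝ) (ρ s : ℂ) : ℂ :=
  log (bl a t₀ U ρ s) * sinh (Real.pi * (s - pt a t₀) / U)

theorem ph_diff (hBLL : T_BLL) (hBLA : T_BLA) {a t₀ U : ℝ} {ρ s : ℂ} (hU : 0 < U)
    (ha : a < ρ.re) (h1 : t₀ < ρ.im) (h2 : ρ.im < t₀ + U) (hs : ρ.re < s.re) (hs1 : t₀ ≤ s.im)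
    (hs2 : s.im ≤ t₀ + U) : DifferentiableAt ℂ (Ph a t₀ U ρ) s := by
  obtain ⟨⟨V, k, hV, hV1, hV2, -⟩, -⟩ := hBLA a t₀ U ρ hU ha h1 h2
  have h3 : DifferentiableAt ℂ (bl a t₀ U ρ) s :=
    hV2.differentiableAt (hV.mem_nhds (hV1 s (ha.le.trans hs.le) hs1 hs2))
  have h4 := hBLL a t₀ U ρ s hU ha h1 h2 hs hs1 hs2
  have h5 : DifferentiableAt ℂ (fun s : ℂ => sinh (Real.pi * (s - pt a t₀) / U)) s := by
    fun_prop
  exact (h3.clog h4).mul h5

theorem pt_re (x t : ℝ) : (pt x t).re = x := by simp [pt]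

theorem pt_im (x t : ℝ) : (pt x t).im = t := by simp [pt]

theorem ph_bot (hBLA : T_BLA) {a t₀ U : ℝ} {ρ : ℂ} (hU : 0 < U)
    (ha : a < ρ.re) (h1 : t₀ < ρ.im) (h2 : ρ.im < t₀ + U) {x : ℝ} (hx : ρ.re < x) :
    (Ph a t₀ U ρ (pt x t₀)).re = 0 ∧ (Ph a t₀ U ρ (pt x (t₀ + U))).re = 0 := by
  obtain ⟨-, -, h3⟩ := hBLA a t₀ U ρ hU ha h1 h2
  obtain ⟨h4, h5⟩ := h3 x (ha.trans hx).le
  have hU0 : (U : ℂ) ≠ 0 := Complex.ofReal_ne_zero.2 hU.ne'
  have e1 : (Real.pi * (pt x t₀ - pt a t₀) / U : ℂ) = ((Real.pi * (x - a) / U : ℝ) : ℂ) := by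
    simp only [pt]
    push_cast
    ring
  have e2 : (Real.pi * (pt x (t₀ + U) - pt a t₀) / U : ℂ) =
      ((Real.pi * (x - a) / U : ℝ) : ℂ) + Real.pi * I := by
    simp only [pt]
    push_cast
    field_simp
    ring
  constructor
  · rw [Ph, e1, ← Complex.ofReal_sinh, Complex.re_mul_ofReal, Complex.log_re, h4, Real.log_one,
      zero_mul]
  · rw [Ph, e2, Complex.sinh_add, Complex.cosh_mul_I, Complex.sinh_mul_I, Complex.cos_pi,
      Complex.sin_pi]
    have e3 : Complex.sinh ((Real.pi * (x - a) / U : ℝ) : ℂ) * -1 +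
        Complex.cosh ((Real.pi * (x - a) / U : ℝ) : ℂ) * (0 * I) =
        ((-Real.sinh (Real.pi * (x - a) / U) : ℝ) : ℂ) := by
      push_cast
      ring
    rw [e3, Complex.re_mul_ofReal, Complex.log_re, h5, Real.log_one, zero_mul]

theorem ph_shift (hBLL : T_BLL) (hBLA : T_BLA) {a t₀ U : ℝ} {ρ : ℂ} (hU : 0 < U)
    (ha : a < ρ.re) (h1 : t₀ < ρ.im) (h2 : ρ.im < t₀ + U) {b₁ b₂ : ℝ} (hb1 : ρ.re < b₁)
    (hb2 : b₁ ≤ b₂) :
    (∫ t in (0 : ℝ)..U, Ph a t₀ U ρ (pt b₁ (t₀ + t)) * I).re =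
      (∫ t in (0 : ℝ)..U, Ph a t₀ U ρ (pt b₂ (t₀ + t)) * I).re := by
  have hd : DifferentiableOn ℂ (Ph a t₀ U ρ)
      (uIcc (pt b₁ t₀).re (pt b₂ (t₀ + U)).re ×ℂ uIcc (pt b₁ t₀).im (pt b₂ (t₀ + U)).im) := by
    intro s hs
    rw [Complex.mem_reProdIm, pt_re, pt_re, pt_im, pt_im, uIcc_of_le hb2,
      uIcc_of_le (by linarith)] at hs
    exact (ph_diff hBLL hBLA hU ha h1 h2 (hb1.trans_le hs.1.1) hs.2.1
      hs.2.2).differentiableWithinAt
  have h3 := Complex.integral_boundary_rect_eq_zero_of_differentiableOn _ _ _ hd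
  rw [pt_re, pt_re, pt_im, pt_im] at h3
  have hre : ∀ T : ℝ, (T = t₀ ∨ T = t₀ + U) →
      (∫ x : ℝ in b₁..b₂, Ph a t₀ U ρ (x + T * I)).re = 0 := by
    intro T hT
    have hc : ContinuousOn (fun x : ℝ => Ph a t₀ U ρ (x + T * I)) (uIcc b₁ b₂) := by
      intro x hx
      rw [uIcc_of_le hb2] at hx
      have h4 : DifferentiableAt ℂ (Ph a t₀ U ρ) (x + T * I) := by
        refine ph_diff hBLL hBLA hU ha h1 h2 ?_ ?_ ?_
        · simpa using hb1.trans_le hx.1
        · rcases hT with rfl | rfl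
          · simp
          · simp; linarith
        · rcases hT with rfl | rfl
          · simp; linarith
          · simp
      have h5 : ContinuousAt (fun x : ℝ => (x + T * I : ℂ)) x := by fun_prop
      exact (ContinuousAt.comp (f := fun x : ℝ => (x + T * I : ℂ)) h4.continuousAt
        h5).continuousWithinAt
    have h6 := Complex.reCLM.intervalIntegral_comp_comm (hc.intervalIntegrable (μ :=
      MeasureTheory.volume))
    rw [Complex.reCLM_apply] at h6
    rw [← h6]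
    rw [intervalIntegral.integral_congr (g := fun _ => (0 : ℝ))]
    · simp
    · intro x hx
      rw [uIcc_of_le hb2] at hx
      obtain ⟨h7, h8⟩ := ph_bot hBLA hU ha h1 h2 (hb1.trans_le hx.1)
      rcases hT with rfl | rfl
      · exact h7
      · exact h8
  have hsub : ∀ b : ℝ, (∫ t in (0 : ℝ)..U, Ph a t₀ U ρ (pt b (t₀ + t)) * I) =
      I • ∫ y : ℝ in t₀..t₀ + U, Ph a t₀ U ρ (b + y * I) := by
    intro b
    rw [intervalIntegral.integral_mul_const, smul_eq_mul, mul_comm]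
    have h4 := intervalIntegral.integral_comp_add_left
      (fun y : ℝ => Ph a t₀ U ρ (b + y * I)) t₀ (a := 0) (b := U)
    rw [add_zero] at h4
    rw [← h4]
    rfl
  rw [hsub, hsub]
  have h4 := congrArg Complex.re h3
  rw [Complex.sub_re, Complex.add_re, Complex.sub_re, hre t₀ (Or.inl rfl),
    hre (t₀ + U) (Or.inr rfl), Complex.zero_re] at h4
  linarith

theorem cosh_lower (w : ℂ) : Real.sinh w.re ≤ ‖cosh w‖ := by
  have h1 : cosh w = (exp w + exp (-w)) / 2 := rfl
  have h2 : ‖exp w‖ - ‖exp (-w)‖ ≤ ‖exp w + exp (-w)‖ := by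
    have := norm_sub_le (exp w + exp (-w)) (exp (-w))
    rw [add_sub_cancel_right] at this
    linarith
  rw [h1, norm_div, Complex.norm_two, Real.sinh_eq]
  rw [Complex.norm_exp, Complex.norm_exp, Complex.neg_re] at h2
  linarith

theorem sinh_upper (w : ℂ) : ‖sinh w‖ ≤ Real.cosh w.re := by
  have h1 : sinh w = (exp w - exp (-w)) / 2 := rfl
  have h2 := norm_sub_le (exp w) (exp (-w))
  rw [h1, norm_div, Complex.norm_two, Real.cosh_eq]
  rw [Complex.norm_exp, Complex.norm_exp, Complex.neg_re] at h2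
  linarith

/-- the asymptotic estimate in abstract form -/
theorem ph_est (w z : ℂ) (hN : 1 + 8 * ‖z‖ ≤ Real.sinh w.re) :
    ‖log ((cosh w - z) / (cosh w - (starRingEnd ℂ) z)) * sinh w * I - 2 * (z.im : ℂ)‖ ≤
      (32 * ‖z‖ ^ 2 + 4 * ‖z‖ * (1 + ‖z‖)) / Real.sinh w.re := by
  set N := Real.sinh w.re with hNd
  set m := ‖z‖ with hm
  have hm0 : 0 ≤ m := norm_nonneg _
  have hN1 : 1 ≤ N := by linarith
  have hw0 : 0 ≤ w.re := by
    by_contra hcon
    have : N < 0 := Real.sinh_neg_iff.2 (not_le.1 hcon)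
    linarith
  have hcosh : Real.cosh w.re ≤ 2 * N := by
    have h1 := Real.cosh_sq w.re
    have h2 : 0 < Real.cosh w.re := Real.cosh_pos _
    rw [← hNd] at h1
    nlinarith
  have hC := cosh_lower w
  have hS := (sinh_upper w).trans hcosh
  rw [← hNd] at hC
  set D := cosh w - (starRingEnd ℂ) z with hD
  have hDn : N / 2 ≤ ‖D‖ := by
    have h1 := norm_sub_norm_le (cosh w) ((starRingEnd ℂ) z)
    rw [RCLike.norm_conj, ← hm, ← hD] at h1
    linarith
  have hD0 : D ≠ 0 := by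
    intro h
    rw [h, norm_zero] at hDn
    linarith
  set v := ((starRingEnd ℂ) z - z) / D with hv
  have hbl : (cosh w - z) / D = 1 + v := by
    rw [hv, hD]
    rw [hD] at hD0
    field_simp
    ring
  have hvD : v * D * I = 2 * (z.im : ℂ) := by
    rw [hv, div_mul_cancel₀ _ hD0]
    have h1 : (starRingEnd ℂ) z - z = -(2 * z.im * I) := by
      have h3 := Complex.sub_conj z
      rw [← neg_sub, h3]
      push_cast
      ring
    rw [h1]
    have h2 : -(2 * (z.im : ℂ) * I) * I = -(2 * z.im * (I * I)) := by ring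
    rw [h2, Complex.I_mul_I]
    ring
  have hvn : ‖v‖ ≤ 4 * m / N := by
    rw [hv, norm_div, div_le_div_iff₀ (by linarith) (by linarith)]
    have h1 : ‖(starRingEnd ℂ) z - z‖ ≤ 2 * m := by
      have := norm_sub_le ((starRingEnd ℂ) z) z
      rw [RCLike.norm_conj] at this
      linarith
    nlinarith [norm_nonneg ((starRingEnd ℂ) z - z)]
  have hv2 : ‖v‖ ≤ 1 / 2 := by
    refine hvn.trans ?_
    rw [div_le_iff₀ (by linarith)]
    linarith
  have hlog : ‖log (1 + v) - v‖ ≤ ‖v‖ ^ 2 := by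
    refine (Complex.norm_log_one_add_sub_self_le (by linarith)).trans ?_
    have h1 : (1 - ‖v‖)⁻¹ ≤ 2 := by
      rw [inv_le_comm₀ (by linarith) (by norm_num)]
      linarith
    have h2 : 0 ≤ ‖v‖ ^ 2 := sq_nonneg _
    nlinarith
  have hSD : ‖sinh w - D‖ ≤ 1 + m := by
    have h1 : sinh w - D = -exp (-w) + (starRingEnd ℂ) z := by
      rw [hD, ← Complex.cosh_sub_sinh]
      ring
    rw [h1]
    refine (norm_add_le _ _).trans ?_
    rw [norm_neg, Complex.norm_exp, Complex.neg_re, RCLike.norm_conj]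
    have h2 : Real.exp (-w.re) ≤ 1 := Real.exp_le_one_iff.2 (by linarith)
    linarith
  have key : log ((cosh w - z) / D) * sinh w * I - 2 * (z.im : ℂ) =
      (log (1 + v) - v) * sinh w * I + v * (sinh w - D) * I := by
    rw [hbl, ← hvD]
    ring
  rw [key]
  have hv4 : ‖v‖ ^ 2 ≤ (4 * m / N) ^ 2 := pow_le_pow_left₀ (norm_nonneg _) hvn 2
  calc ‖(log (1 + v) - v) * sinh w * I + v * (sinh w - D) * I‖
      ≤ ‖(log (1 + v) - v) * sinh w * I‖ + ‖v * (sinh w - D) * I‖ := norm_add_le _ _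
    _ = ‖log (1 + v) - v‖ * ‖sinh w‖ + ‖v‖ * ‖sinh w - D‖ := by
        simp
    _ ≤ (4 * m / N) ^ 2 * (2 * N) + 4 * m / N * (1 + m) := by
        gcongr
        exact hlog.trans hv4
    _ = (32 * m ^ 2 + 4 * m * (1 + m)) / N := by
        have : N ≠ 0 := by linarith
        field_simp
        ring

theorem pf_BLI (hBLL : T_BLL) (hBLA : T_BLA) : T_BLI := by
  intro a b t₀ U ρ hU ha hb h1 h2
  have hU0 : (U : ℂ) ≠ 0 := Complex.ofReal_ne_zero.2 hU.ne'
  have hpi := Real.pi_pos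
  set z : ℂ := cz a t₀ U ρ with hz
  have hzim : z.im = Real.sinh (Real.pi * (ρ.re - a) / U) *
      Real.sin (Real.pi * (ρ.im - t₀) / U) := by
    have e1 : (Real.pi * (ρ - pt a t₀) / U : ℂ) = ((Real.pi * (ρ.re - a) / U : ℝ) : ℂ) +
        ((Real.pi * (ρ.im - t₀) / U : ℝ) : ℂ) * I := by
      conv_lhs => rw [← Complex.re_add_im ρ]
      simp only [pt]
      push_cast
      ring
    rw [hz, cz, e1]
    generalize Real.pi * (ρ.re - a) / U = x
    generalize Real.pi * (ρ.im - t₀) / U = y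
    rw [Complex.cosh_add, Complex.cosh_mul_I, Complex.sinh_mul_I,
      ← Complex.ofReal_cosh, ← Complex.ofReal_sinh, ← Complex.ofReal_cos, ← Complex.ofReal_sin]
    simp [-Complex.ofReal_cosh, -Complex.ofReal_sinh, -Complex.ofReal_cos, -Complex.ofReal_sin]
  set K : ℝ := 32 * ‖z‖ ^ 2 + 4 * ‖z‖ * (1 + ‖z‖) with hK
  have hK0 : 0 ≤ K := by positivity
  rw [← hzim]
  set J : ℝ := (∫ t in (0 : ℝ)..U, log (bl a t₀ U ρ (pt b (t₀ + t))) *
    (sinh (Real.pi * (pt b (t₀ + t) - pt a t₀) / U) * I)).re with hJ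
  have hJ' : J = (∫ t in (0 : ℝ)..U, Ph a t₀ U ρ (pt b (t₀ + t)) * I).re := by
    rw [hJ]
    simp only [Ph, mul_assoc]
  have main : ∀ N : ℝ, 1 + 8 * ‖z‖ ≤ N → Real.sinh (Real.pi * (b - a) / U) ≤ N →
      |J - 2 * U * z.im| ≤ K / N * U := by
    intro N hN1 hN2
    set b' : ℝ := a + U * Real.arsinh N / Real.pi with hb'
    have hX : Real.pi * (b' - a) / U = Real.arsinh N := by
      rw [hb']
      field_simp
      ring
    have hbb : b ≤ b' := by
      have h3 : Real.pi * (b - a) / U ≤ Real.arsinh N := by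
        rw [← Real.sinh_le_sinh, Real.sinh_arsinh]
        exact hN2
      rw [← hX] at h3
      have h4 : Real.pi * (b - a) ≤ Real.pi * (b' - a) := by
        rwa [div_le_div_iff_of_pos_right hU] at h3
      have h5 := le_of_mul_le_mul_left h4 hpi
      linarith
    rw [hJ', ph_shift hBLL hBLA hU ha h1 h2 hb hbb]
    have hcont : ContinuousOn (fun t : ℝ => Ph a t₀ U ρ (pt b' (t₀ + t)) * I) (uIcc 0 U) := by
      intro t ht
      rw [uIcc_of_le hU.le] at ht
      have h4 : DifferentiableAt ℂ (Ph a t₀ U ρ) (pt b' (t₀ + t)) := by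
        refine ph_diff hBLL hBLA hU ha h1 h2 ?_ ?_ ?_
        · rw [pt_re]; linarith
        · rw [pt_im]; linarith [ht.1]
        · rw [pt_im]; linarith [ht.2]
      have h5 : ContinuousAt (fun t : ℝ => pt b' (t₀ + t)) t := by
        unfold pt
        fun_prop
      exact ((ContinuousAt.comp (f := fun t : ℝ => pt b' (t₀ + t)) h4.continuousAt h5).mul
        continuousAt_const).continuousWithinAt
    have hsplit : (∫ t in (0 : ℝ)..U, Ph a t₀ U ρ (pt b' (t₀ + t)) * I) =
        (∫ t in (0 : ℝ)..U, (Ph a t₀ U ρ (pt b' (t₀ + t)) * I - 2 * (z.im : ℂ))) +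
          U * (2 * (z.im : ℂ)) := by
      rw [intervalIntegral.integral_sub hcont.intervalIntegrable intervalIntegrable_const,
        intervalIntegral.integral_const, sub_zero, Complex.real_smul, sub_add_cancel]
    rw [hsplit, Complex.add_re]
    have h6 : (U * (2 * (z.im : ℂ)) : ℂ).re = 2 * U * z.im := by
      have : (U * (2 * (z.im : ℂ)) : ℂ) = ((2 * U * z.im : ℝ) : ℂ) := by push_cast; ring
      rw [this, Complex.ofReal_re]
    rw [h6, add_sub_cancel_right]
    refine (Complex.abs_re_le_norm _).trans ?_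
    have h7 := intervalIntegral.norm_integral_le_of_norm_le_const (a := 0) (b := U)
      (f := fun t : ℝ => Ph a t₀ U ρ (pt b' (t₀ + t)) * I - 2 * (z.im : ℂ)) (C := K / N)
      (fun t ht => ?_)
    · rwa [sub_zero, abs_of_pos hU] at h7
    · have h8 : (Real.pi * (pt b' (t₀ + t) - pt a t₀) / U : ℂ).re = Real.arsinh N := by
        have h9 : (Real.pi * (pt b' (t₀ + t) - pt a t₀) / U : ℂ) =
            ((Real.pi * (b' - a) / U : ℝ) : ℂ) + ((Real.pi * t / U : ℝ) : ℂ) * I := by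
          simp only [pt]
          push_cast
          ring
        rw [h9, hX]
        simp
      have h10 := ph_est (Real.pi * (pt b' (t₀ + t) - pt a t₀) / U : ℂ) z (by
        rw [h8, Real.sinh_arsinh]; exact hN1)
      rw [h8, Real.sinh_arsinh] at h10
      exact h10
  have hfin : |J - 2 * U * z.im| ≤ 0 := by
    refine le_of_forall_pos_le_add fun ε hε => ?_
    rw [zero_add]
    set N : ℝ := max (max (1 + 8 * ‖z‖) (Real.sinh (Real.pi * (b - a) / U))) (K * U / ε) with hN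
    have hN1 : 1 + 8 * ‖z‖ ≤ N := (le_max_left _ _).trans (le_max_left _ _)
    have hN2 : Real.sinh (Real.pi * (b - a) / U) ≤ N := (le_max_right _ _).trans (le_max_left _ _)
    have hN3 : K * U / ε ≤ N := le_max_right _ _
    have hN0 : 0 < N := by linarith [norm_nonneg z]
    refine (main N hN1 hN2).trans ?_
    rw [div_mul_eq_mul_div, div_le_iff₀ hN0]
    rw [div_le_iff₀ hε] at hN3
    linarith
  have := abs_nonpos_iff.1 hfin
  linarith

end Pool.Agent.H77.LEV
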