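import Pool.Agent.H31.LEV.Targets

/-!
# LEV, row HHR: the factor `hh` and Levinson's function
-/

set_option autoImplicit false

open Complex Filter Topology Set

namespace Pool.Agent.H77.LEV

open Pool.Agent.H31.LEV

theorem pf_HHR : T_HHR := by
  intro L B c U hB hc hL hU hs
  have h1 : ∀ s ∈ U, 1 / 2 ≤ (hh B c s).re := by
    intro s hsU
    obtain ⟨-, h2⟩ := hs s hsU
    have h3 : (hh B c s).re = 1 + c * (Real.log B + (digamma s).re) := by
      simp [hh]
    have h4 : -‖digamma s‖ ≤ (digamma s).re := by
      have := Complex.abs_re_le_norm (digamma s)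
      linarith [neg_abs_le (digamma s).re]
    have h5 : 0 ≤ Real.log B := Real.log_nonneg hB
    rw [h3]
    nlinarith [mul_le_mul_of_nonneg_left h4 hc.le, mul_nonneg hc.le h5]
  have hG : DifferentiableOn ℂ Gamma {s : ℂ | 0 < s.re} := by
    intro s hs0
    refine (Complex.differentiableAt_Gamma s fun m hm => ?_).differentiableWithinAt
    have h2 : (0 : ℝ) < s.re := hs0
    rw [hm] at h2
    simp at h2
    have := Nat.cast_nonneg (α := ℝ) m
    linarith
  have hO : IsOpen {s : ℂ | 0 < s.re} := isOpen_lt continuous_const Complex.continuous_re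
  have hdg : DifferentiableOn ℂ digamma {s : ℂ | 0 < s.re} := by
    have h2 : DifferentiableOn ℂ (fun s => deriv Gamma s / Gamma s) {s : ℂ | 0 < s.re} :=
      (hG.deriv hO).div hG fun s hs0 => Complex.Gamma_ne_zero_of_re_pos hs0
    exact h2
  have hhd : DifferentiableOn ℂ (hh B c) U := by
    have h2 : DifferentiableOn ℂ digamma U := hdg.mono fun s hsU => (hs s hsU).1
    exact ((h2.const_add _).const_mul _).const_add _
  have hn : ∀ s ∈ U, hh B c s ≠ 0 := by
    intro s hsU h2
    have h3 := h1 s hsU
    rw [h2, Complex.zero_re] at h3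
    norm_num at h3
  have hL' : Differentiable ℂ (deriv L) := by
    have h2 := (hL.differentiableOn (s := univ)).deriv isOpen_univ
    exact fun s => (h2 s (mem_univ s)).differentiableAt univ_mem
  refine ⟨h1, hhd, ?_, ?_⟩
  · exact (hL.differentiableOn).add (((differentiableOn_const _).div hhd hn).mul
      hL'.differentiableOn)
  · intro s hsU
    have h2 : 1 / 2 ≤ ‖hh B c s‖ := (h1 s hsU).trans (Complex.re_le_norm _)
    have h3 : ‖(c : ℂ) / hh B c s‖ ≤ 2 * c := by
      rw [norm_div, Complex.norm_real, Real.norm_eq_abs, abs_of_pos hc,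
        div_le_iff₀ (by linarith)]
      nlinarith
    calc ‖VV L B c s‖ ≤ ‖L s‖ + ‖c / hh B c s * deriv L s‖ := norm_add_le _ _
      _ ≤ ‖L s‖ + 2 * c * ‖deriv L s‖ := by
        rw [norm_mul]
        gcongr

end Pool.Agent.H77.LEV
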